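import Pool.Agent.Y303.SK.Stm
import Mathlib

/-!
# Project SK: the complete system of the other modes
-/

open Set Filter Topology MeasureTheory Metric

set_option autoImplicit false

namespace Pool.Agent.Y328.SK

open Pool.Agent.Y5 (E3)
open Pool.Agent.Y5.D (Ix qd vf3 Init)
open Pool.Agent.Y303.SK

noncomputable section

theorem dvg_add {v w : E3 → E3} {x : E3} (hv : DifferentiableAt ℝ v x)
    (hw : DifferentiableAt ℝ w x) : dvg (v + w) x = dvg v x + dvg w x := by
  unfold dvg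
  rw [fderiv_add hv hw, ← Finset.sum_add_distrib]
  exact Finset.sum_congr rfl fun i _ => by simp

theorem dvg_smul {v : E3 → E3} {x : E3} (c : ℝ) (hv : DifferentiableAt ℝ v x) :
    dvg (c • v) x = c * dvg v x := by
  unfold dvg
  rw [fderiv_const_smul hv, Finset.mul_sum]
  exact Finset.sum_congr rfl fun i _ => by simp

theorem cs_diff {Ω : Set E3} {v : E3 → E3} (h : CS Ω v) : Differentiable ℝ v :=
  h.smooth.differentiable (by simp)

/-- the fields `CS Ω` as a vector space -/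
def VS (Ω : Set E3) : Submodule ℝ (E3 → E3) where
  carrier := {v | CS Ω v}
  zero_mem' := by
    refine ⟨contDiff_const, ?_, ?_, ?_⟩
    · exact HasCompactSupport.zero
    · simp [tsupport]
    · intro x
      have : fderiv ℝ (0 : E3 → E3) x = 0 := by
        exact fderiv_const_apply (0 : E3)
      simp [dvg, this]
  add_mem' := by
    intro v w hv hw
    refine ⟨hv.smooth.add hw.smooth, hv.cpt.add hw.cpt, ?_, ?_⟩
    · exact (tsupport_add v w).trans (union_subset hv.supp hw.supp)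
    · intro x
      rw [dvg_add (cs_diff hv x) (cs_diff hw x), hv.dv, hw.dv, add_zero]
  smul_mem' := by
    intro c v hv
    refine ⟨hv.smooth.const_smul c, ?_, ?_, ?_⟩
    · exact hv.cpt.smul_left (f := fun _ => c)
    · exact (tsupport_smul_subset_right (fun _ => c) v).trans hv.supp
    · intro x
      rw [dvg_smul c (cs_diff hv x), hv.dv, mul_zero]

theorem memLp_cs {Ω : Set E3} {v : E3 → E3} (h : CS Ω v) : MemLp v 2 volume :=
  h.smooth.continuous.memLp_of_hasCompactSupport h.cpt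

/-- the classes in `L²` -/
def TT (Ω : Set E3) : VS Ω →ₗ[ℝ] Lp E3 2 (volume : Measure E3) where
  toFun v := (memLp_cs v.2).toLp _
  map_add' v w := MemLp.toLp_add (memLp_cs v.2) (memLp_cs w.2)
  map_smul' c v := MemLp.toLp_const_smul c (memLp_cs v.2)

theorem inner_TT {Ω : Set E3} (v w : VS Ω) :
    inner ℝ (TT Ω v) (TT Ω w) = ipr v w := by
  rw [L2.inner_def]
  unfold ipr
  apply integral_congr_ae
  filter_upwards [(memLp_cs v.2).coeFn_toLp, (memLp_cs w.2).coeFn_toLp] with x h1 h2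
  change inner ℝ (((memLp_cs v.2).toLp _ : Lp E3 2 (volume : Measure E3)) x)
    (((memLp_cs w.2).toLp _ : Lp E3 2 (volume : Measure E3)) x) = _
  rw [h1, h2]

theorem norm_TT {Ω : Set E3} (v : VS Ω) :
    ‖TT Ω v‖ ^ 2 = ∫ x, ‖(v : E3 → E3) x‖ ^ 2 := by
  rw [← real_inner_self_eq_norm_sq, inner_TT]
  unfold ipr
  exact integral_congr_ae (Eventually.of_forall fun x => real_inner_self_eq_norm_sq _)

theorem TT_inj {Ω : Set E3} : Function.Injective (TT Ω) := by
  rw [injective_iff_map_eq_zero]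
  intro v hv
  have h1 : (v : E3 → E3) =ᵐ[volume] 0 := by
    have h2 := (memLp_cs v.2).coeFn_toLp
    have h3 : ((memLp_cs v.2).toLp _ : Lp E3 2 (volume : Measure E3)) = 0 := hv
    rw [h3] at h2
    exact h2.symm.trans (Lp.coeFn_zero _ _ _)
  have h2 : (v : E3 → E3) = 0 :=
    (Continuous.ae_eq_iff_eq volume v.2.smooth.continuous continuous_zero).1 h1
  exact Subtype.ext h2


/-! ### one field -/

/-- the rotation field -/
def Jm : E3 →L[ℝ] E3 :=
  LinearMap.toContinuousLinearMap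
    { toFun := fun x => WithLp.toLp 2 ![x 1, -x 0, 0]
      map_add' := fun x y => by ext i; fin_cases i <;> simp <;> ring
      map_smul' := fun r x => by ext i; fin_cases i <;> simp }

theorem Jm_apply (x : E3) (i : Fin 3) : Jm x i = ![x 1, -x 0, 0] i := rfl

/-- the cutoff function -/
def sf (c : E3) (r : ℝ) (x : E3) : ℝ := Real.smoothTransition (2 - ‖x - c‖ ^ 2 / r ^ 2)

/-- the field -/
def ff (c : E3) (r : ℝ) (x : E3) : E3 := sf c r x • Jm (x - c)

theorem sf_smooth (c : E3) (r : ℝ) : ContDiff ℝ (⊤ : ℕ∞) (sf c r) := by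
  unfold sf
  apply Real.smoothTransition.contDiff.comp
  exact contDiff_const.sub (((contDiff_id.sub contDiff_const).norm_sq ℝ).div_const _)

theorem ff_smooth (c : E3) (r : ℝ) : ContDiff ℝ (⊤ : ℕ∞) (ff c r) :=
  (sf_smooth c r).smul (Jm.contDiff.comp (contDiff_id.sub contDiff_const))

theorem ff_supp (c : E3) {r : ℝ} (hr : 0 < r) : Function.support (ff c r) ⊆
    closedBall c (3 / 2 * r) := by
  intro x hx
  rw [mem_closedBall, dist_eq_norm]
  by_contra h
  push Not at h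
  apply hx
  have h1 : 2 - ‖x - c‖ ^ 2 / r ^ 2 ≤ 0 := by
    have h2 : (3 / 2 * r) ^ 2 ≤ ‖x - c‖ ^ 2 := by
      apply pow_le_pow_left₀ (by positivity) h.le
    have h3 : 2 ≤ ‖x - c‖ ^ 2 / r ^ 2 := by
      rw [le_div_iff₀ (by positivity)]
      nlinarith [sq_nonneg r]
    linarith
  unfold ff sf
  rw [Real.smoothTransition.zero_of_nonpos h1, zero_smul]

theorem ff_tsupp (c : E3) {r : ℝ} (hr : 0 < r) : tsupport (ff c r) ⊆ closedBall c (3 / 2 * r) :=
  closure_minimal (ff_supp c hr) isClosed_closedBall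

theorem ff_dv (c : E3) (r : ℝ) (x : E3) : dvg (ff c r) x = 0 := by
  have h1 : HasFDerivAt (fun x : E3 => ‖x - c‖ ^ 2) (2 • innerSL ℝ (x - c)) x := by
    have := ((hasFDerivAt_id x).sub_const c).norm_sq
    simpa using this
  have h2 : HasFDerivAt (fun x : E3 => 2 - ‖x - c‖ ^ 2 / r ^ 2)
      (-((r ^ 2)⁻¹ • (2 • innerSL ℝ (x - c)))) x := by
    have := (h1.mul_const (r ^ 2)⁻¹).const_sub 2
    simpa [div_eq_mul_inv] using this
  have h3 : HasFDerivAt (sf c r) (deriv Real.smoothTransition (2 - ‖x - c‖ ^ 2 / r ^ 2) •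
      (-((r ^ 2)⁻¹ • (2 • innerSL ℝ (x - c))) : E3 →L[ℝ] ℝ)) x := by
    have h4 : HasDerivAt Real.smoothTransition
        (deriv Real.smoothTransition (2 - ‖x - c‖ ^ 2 / r ^ 2)) (2 - ‖x - c‖ ^ 2 / r ^ 2) :=
      ((Real.smoothTransition.contDiff (n := 1)).differentiable (by simp) _).hasDerivAt
    exact h4.comp_hasFDerivAt x h2
  have h5 : HasFDerivAt (fun x : E3 => Jm (x - c)) Jm x := by
    have := Jm.hasFDerivAt (x := x)
    simpa using this
  have h6 := (h3.smul h5).fderiv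
  unfold dvg
  have h7 : fderiv ℝ (ff c r) x = _ := h6
  rw [h7]
  simp only [Fin.sum_univ_three]
  simp [Jm_apply, cv, EuclideanSpace.inner_eq_star_dotProduct, PiLp.sub_apply]
  ring

theorem ff_cs (c : E3) {r ρ : ℝ} (hr : 0 < r) (hρ : 3 / 2 * r < ρ) : CS (ball c ρ) (ff c r) :=
  ⟨ff_smooth c r, HasCompactSupport.intro (isCompact_closedBall c (3 / 2 * r)) fun x hx => by
      by_contra h
      exact hx (ff_supp c hr h),
    (ff_tsupp c hr).trans (closedBall_subset_ball hρ), ff_dv c r⟩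

theorem ff_ne (c : E3) {r : ℝ} (hr : 0 < r) : ff c r (c + r • cv 0) ≠ 0 := by
  intro h
  have h1 := congrArg (fun z : E3 => z 1) h
  have h2 : sf c r (c + r • cv 0) = 1 := by
    unfold sf
    apply Real.smoothTransition.one_of_one_le
    have h3 : ‖c + r • cv 0 - c‖ = r := by
      rw [add_sub_cancel_left, norm_smul]
      simp [cv, abs_of_pos hr]
    rw [h3, div_self (by positivity)]
    norm_num
  unfold ff at h1
  rw [h2] at h1
  simp [Jm_apply, cv] at h1
  exact hr.ne' h1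


theorem cs_mono {Ω Ω' : Set E3} (h : Ω ⊆ Ω') {v : E3 → E3} (hv : CS Ω v) : CS Ω' v :=
  ⟨hv.smooth, hv.cpt, hv.supp.trans h, hv.dv⟩

theorem exists_seq (y : E3) {δ : ℝ} (hδ : 0 < δ) : ∃ f : ℕ → E3 → E3,
    (∀ k, CS (ball y δ) (f k)) ∧ (∀ k, f k ≠ 0) ∧
    ∀ j k, j ≠ k → ∀ x, f j x = 0 ∨ f k x = 0 := by
  set a : ℕ → ℝ := fun k => δ / 2 ^ (k + 1) with ha
  have ha0 : ∀ k, 0 < a k := fun k => by positivity
  have haδ : ∀ k, a k ≤ δ / 2 := by
    intro k
    have h1 : (2 : ℝ) ≤ 2 ^ (k + 1) := by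
      rw [pow_succ]
      have := one_le_pow₀ (n := k) (by norm_num : (1 : ℝ) ≤ 2)
      linarith
    exact div_le_div_of_nonneg_left hδ.le (by norm_num) h1
  have hanti : ∀ j k, j < k → a k ≤ a j / 2 := by
    intro j k hjk
    have h1 : a j / 2 = δ / 2 ^ (j + 1 + 1) := by
      rw [ha, pow_succ 2 (j + 1)]
      field_simp
    rw [h1]
    exact div_le_div_of_nonneg_left hδ.le (by positivity)
      (pow_le_pow_right₀ (by norm_num) (by omega))
  set c : ℕ → E3 := fun k => y + a k • cv 0 with hc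
  have hdist : ∀ k x, |(x - y) 0 - a k| ≤ ‖x - c k‖ := by
    intro k x
    have h1 : (x - c k) 0 = (x - y) 0 - a k := by
      simp [hc, cv]
      ring
    rw [← h1]
    exact PiLp.norm_apply_le (x - c k) 0
  refine ⟨fun k => ff (c k) (a k / 8), fun k => ?_, fun k h => ?_, ?_⟩
  · apply cs_mono _ (ff_cs (c k) (r := a k / 8) (ρ := a k / 4) (by linarith [ha0 k])
      (by linarith [ha0 k]))
    intro x hx
    rw [mem_ball, dist_eq_norm] at hx ⊢
    have h1 : ‖c k - y‖ = a k := by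
      simp only [hc, add_sub_cancel_left]
      rw [norm_smul]
      simp [cv, abs_of_pos (ha0 k)]
    have h2 : ‖x - y‖ ≤ ‖x - c k‖ + ‖c k - y‖ := norm_sub_le_norm_sub_add_norm_sub _ _ _
    linarith [haδ k]
  · exact ff_ne (c k) (r := a k / 8) (by linarith [ha0 k]) (congrFun h _)
  · have key : ∀ j k, j < k → ∀ x, ff (c j) (a j / 8) x = 0 ∨ ff (c k) (a k / 8) x = 0 := by
      intro j k hjk x
      by_contra h
      push Not at h
      have h1 := ff_supp (c j) (by linarith [ha0 j]) h.1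
      have h2 := ff_supp (c k) (by linarith [ha0 k]) h.2
      rw [mem_closedBall, dist_eq_norm] at h1 h2
      have h3 := abs_le.1 ((hdist j x).trans h1)
      have h4 := abs_le.1 ((hdist k x).trans h2)
      have h5 := hanti j k hjk
      linarith [ha0 j, ha0 k]
    intro j k hjk x
    rcases lt_or_gt_of_ne hjk with h | h
    · exact key j k h x
    · exact (key k j h x).symm

theorem ipr_comm (v w : E3 → E3) : ipr v w = ipr w v := by
  unfold ipr
  simp_rw [real_inner_comm]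

/-- linear near `p` -/
def Ln (p : E3) (v : E3 → E3) : Prop := ∃ s ρ : ℝ, 0 < ρ ∧ ∀ x ∈ ball p ρ, v x = s • Sm (x - p)

theorem Ln.add {p : E3} {v w : E3 → E3} (hv : Ln p v) (hw : Ln p w) : Ln p (v + w) := by
  obtain ⟨s, ρ, h0, h⟩ := hv
  obtain ⟨s', ρ', h0', h'⟩ := hw
  refine ⟨s + s', min ρ ρ', lt_min h0 h0', fun x hx => ?_⟩
  rw [Pi.add_apply, h x (ball_subset_ball (min_le_left _ _) hx),
    h' x (ball_subset_ball (min_le_right _ _) hx), add_smul]

theorem Ln.smul {p : E3} {v : E3 → E3} (c : ℝ) (hv : Ln p v) : Ln p (c • v) := by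
  obtain ⟨s, ρ, h0, h⟩ := hv
  exact ⟨c * s, ρ, h0, fun x hx => by rw [Pi.smul_apply, h x hx, mul_smul]⟩

/-- the space of the fields which are linear near `p` and orthogonal to all `ψ n` -/
def GS (Ω : Set E3) (p : E3) (ψ : ℕ → E3 → E3) (hψ : ∀ n, CS Ω (ψ n)) : Submodule ℝ (VS Ω) where
  carrier := {v | Ln p v ∧ ∀ n, inner ℝ (TT Ω ⟨ψ n, hψ n⟩) (TT Ω v) = 0}
  zero_mem' := ⟨⟨0, 1, one_pos, fun x _ => by simp⟩, fun n => by rw [map_zero, inner_zero_right]⟩
  add_mem' := by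
    intro v w hv hw
    exact ⟨hv.1.add hw.1, fun n => by rw [map_add, inner_add_right, hv.2 n, hw.2 n, add_zero]⟩
  smul_mem' := by
    intro c v hv
    exact ⟨hv.1.smul c, fun n => by rw [map_smul, inner_smul_right, hv.2 n, mul_zero]⟩

/-- projection -/
theorem proj {Ω : Set E3} {p : E3} {ψ : ℕ → E3 → E3} (hψ : ∀ n, CS Ω (ψ n))
    (hψo : ∀ m n, (m = n → ipr (ψ m) (ψ n) = 1) ∧ (m ≠ n → ipr (ψ m) (ψ n) = 0))
    (hψs : ∀ ρ > 0, ∃ N, ∀ n ≥ N, ∀ x, x ∉ ball p ρ → ψ n x = 0)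
    (hψl : ∀ n, Ln p (ψ n)) (v : VS Ω)
    (hv : ∃ ρ > 0, ∀ x ∈ ball p ρ, (v : E3 → E3) x = 0) :
    ∃ (N : ℕ) (b : ℕ → ℝ), v - ∑ n ∈ Finset.range N, b n • (⟨ψ n, hψ n⟩ : VS Ω) ∈
      GS Ω p ψ hψ := by
  obtain ⟨ρ, hρ, hv⟩ := hv
  obtain ⟨N, hN⟩ := hψs ρ hρ
  set Ψ : ℕ → VS Ω := fun n => ⟨ψ n, hψ n⟩ with hΨ
  have hΨo : ∀ m n, inner ℝ (TT Ω (Ψ m)) (TT Ω (Ψ n)) = if m = n then 1 else 0 := by
    intro m n
    rw [inner_TT]
    split_ifs with h
    · exact (hψo m n).1 h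
    · exact (hψo m n).2 h
  have hfar : ∀ n, N ≤ n → inner ℝ (TT Ω (Ψ n)) (TT Ω v) = 0 := by
    intro n hn
    rw [inner_TT]
    unfold ipr
    rw [integral_eq_zero_of_ae]
    refine Eventually.of_forall fun x => ?_
    by_cases hx : x ∈ ball p ρ
    · simp [hv x hx]
    · simp [hΨ, hN n hn x hx]
  refine ⟨N, fun n => inner ℝ (TT Ω (Ψ n)) (TT Ω v), ?_, fun m => ?_⟩
  · have h1 : Ln p (v : E3 → E3) := ⟨0, ρ, hρ, fun x hx => by rw [hv x hx, zero_smul]⟩
    have h2 : ∀ s : Finset ℕ, Ln p ((∑ n ∈ s, (inner ℝ (TT Ω (Ψ n)) (TT Ω v) : ℝ) • Ψ n : VS Ω) :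
        E3 → E3) := by
      intro s
      induction s using Finset.induction_on with
      | empty => exact ⟨0, 1, one_pos, fun x _ => by simp⟩
      | insert a s ha ih =>
        rw [Finset.sum_insert ha, Submodule.coe_add, Submodule.coe_smul]
        exact ((hψl a).smul _).add ih
    have h3 := h1.add ((h2 (Finset.range N)).smul (-1))
    rw [sub_eq_add_neg, ← neg_one_smul ℝ (∑ n ∈ Finset.range N, _), Submodule.coe_add,
      Submodule.coe_smul]
    exact h3
  · rw [map_sub, inner_sub_right, map_sum, inner_sum]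
    simp only [map_smul, inner_smul_right]
    have h1 : ∑ n ∈ Finset.range N, inner ℝ (TT Ω (Ψ n)) (TT Ω v) *
        inner ℝ (TT Ω (⟨ψ m, hψ m⟩ : VS Ω)) (TT Ω (⟨ψ n, hψ n⟩ : VS Ω)) =
        inner ℝ (TT Ω (Ψ m)) (TT Ω v) := by
      have h2 : ∀ n, inner ℝ (TT Ω (⟨ψ m, hψ m⟩ : VS Ω)) (TT Ω (⟨ψ n, hψ n⟩ : VS Ω)) =
          if m = n then (1 : ℝ) else 0 := hΨo m
      simp_rw [h2]
      simp only [mul_ite, mul_one, mul_zero]
      rw [Finset.sum_ite_eq]
      split_ifs with h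
      · rfl
      · exact (hfar m (not_lt.1 fun hh => h (Finset.mem_range.2 hh))).symm
    rw [h1]
    exact sub_self _


theorem t_BAS (hd : S_DENS) (hg : S_GS) : S_BAS := by
  intro Ω p y δ ψ hΩ hp hδ hyΩ hpy hψ hψy hψo hψs hψl
  classical
  set X0 : Set (VS Ω) := {v | ∃ ρ > 0, ∀ x ∈ ball p ρ, (v : E3 → E3) x = 0} with hX0
  set Y : Set (Lp E3 2 (volume : Measure E3)) := TT Ω '' X0 with hY
  have : Nonempty Y := ⟨⟨TT Ω 0, ⟨0, ⟨1, one_pos, fun x _ => rfl⟩, rfl⟩⟩⟩
  have : Fact ((2 : ENNReal) ≠ ⊤) := ⟨by norm_num⟩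
  have : SecondCountableTopology (Lp E3 2 (volume : Measure E3)) := inferInstance
  obtain ⟨u, hu⟩ := TopologicalSpace.exists_dense_seq Y
  choose U hU0 hU using fun k => (u k).2
  choose N b hb using fun k => proj hψ hψo hψs hψl (U k) (hU0 k)
  obtain ⟨f, hf1, hf2, hf3⟩ := exists_seq y hδ
  have hfΩ : ∀ k, CS Ω (f k) := fun k => cs_mono hyΩ (hf1 k)
  set Ψ : ℕ → VS Ω := fun n => ⟨ψ n, hψ n⟩ with hΨ
  set f' : ℕ → VS Ω := fun n => ⟨f n, hfΩ n⟩ with hf'
  set Φ : ℕ → VS Ω := fun k => if Even k then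
    U (k / 2) - ∑ n ∈ Finset.range (N (k / 2)), b (k / 2) n • Ψ n else f' (k / 2) with hΦdef
  have hΦe : ∀ k, Φ (2 * k) = U k - ∑ n ∈ Finset.range (N k), b k n • Ψ n := by
    intro k
    simp only [hΦdef]
    rw [if_pos (even_two_mul k), Nat.mul_div_cancel_left k two_pos]
  have hΦo : ∀ k, Φ (2 * k + 1) = f' k := by
    intro k
    simp only [hΦdef]
    rw [if_neg (by rw [Nat.not_even_iff_odd]; exact odd_two_mul_add_one k)]
    congr 1
    omega
  have hfG : ∀ k, f' k ∈ GS Ω p ψ hψ := by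
    intro k
    refine ⟨?_, fun n => ?_⟩
    · have h1 : p ∈ (tsupport (f k))ᶜ := fun h => hpy ((hf1 k).supp h)
      obtain ⟨ρ, hρ, h2⟩ := Metric.isOpen_iff.1 (isClosed_tsupport (f k)).isOpen_compl p h1
      refine ⟨0, ρ, hρ, fun x hx => ?_⟩
      rw [zero_smul]
      exact image_eq_zero_of_notMem_tsupport (h2 hx)
    · rw [inner_TT]
      unfold ipr
      rw [integral_eq_zero_of_ae]
      refine Eventually.of_forall fun x => ?_
      by_cases hx : x ∈ ball y δ
      · simp [hψy n x hx]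
      · have h1 : f k x = 0 :=
          image_eq_zero_of_notMem_tsupport fun h => hx ((hf1 k).supp h)
        simp [hf', h1]
  have hΦG : ∀ k, Φ k ∈ GS Ω p ψ hψ := by
    intro k
    rcases Nat.even_or_odd' k with ⟨m, h | h⟩
    · rw [h, hΦe]
      exact hb m
    · rw [h, hΦo]
      exact hfG m
  -- infinitely many dimensions
  have hli : LinearIndependent ℝ (fun k => TT Ω (f' k)) := by
    apply linearIndependent_of_ne_zero_of_inner_eq_zero (𝕜 := ℝ)
    · intro k h
      apply hf2 k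
      have h1 : f' k = 0 := TT_inj (by rw [h, map_zero])
      exact congrArg Subtype.val h1
    · intro j k hjk
      rw [inner_TT]
      unfold ipr
      rw [integral_eq_zero_of_ae]
      refine Eventually.of_forall fun x => ?_
      rcases hf3 j k hjk x with h | h
      · simp [hf', h]
      · simp [hf', h]
  have hinf : ¬ FiniteDimensional ℝ (Submodule.span ℝ (range fun k => TT Ω (Φ k))) := by
    intro hfin
    set M := Submodule.span ℝ (range fun k => TT Ω (Φ k)) with hM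
    have h1 : ∀ k, TT Ω (f' k) ∈ M := fun k =>
      Submodule.subset_span ⟨2 * k + 1, by simp only [hΦo]⟩
    have h2 : LinearIndependent ℝ (fun k : ℕ => (⟨TT Ω (f' k), h1 k⟩ : M)) :=
      LinearIndependent.of_comp M.subtype hli
    have h3 := h2.finite
    exact not_finite ℕ
  obtain ⟨w, hwo, hwφ, hφw⟩ := hg (Lp E3 2 (volume : Measure E3)) (fun k => TT Ω (Φ k)) hinf
  have hspan : Submodule.span ℝ (range fun k => TT Ω (Φ k)) =
      (Submodule.span ℝ (range Φ)).map (TT Ω) := by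
    rw [Submodule.map_span, ← range_comp]
    rfl
  have hW : ∀ j, ∃ W ∈ Submodule.span ℝ (range Φ), TT Ω W = w j := by
    intro j
    have h1 := hwφ j
    rw [hspan] at h1
    exact h1
  choose W hW1 hW2 using hW
  have hWG : ∀ j, W j ∈ GS Ω p ψ hψ := fun j =>
    (Submodule.span_le.2 (range_subset_iff.2 hΦG)) (hW1 j)
  refine ⟨fun j => W j, fun j => (W j).2, fun j => (hWG j).1, fun i j => ?_, fun n j => ?_, ?_⟩
  · change (i = j → ipr (W i) (W j) = 1) ∧ (i ≠ j → ipr (W i) (W j) = 0)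
    rw [← inner_TT, hW2, hW2]
    have h1 := orthonormal_iff_ite.1 hwo i j
    rw [h1]
    exact ⟨fun h => if_pos h, fun h => if_neg h⟩
  · change ipr (ψ n) (W j) = 0
    have := (hWG j).2 n
    rwa [inner_TT] at this
  · intro v hv ε hε
    obtain ⟨v0, hv0, hv0', hlt⟩ := hd Ω p v hΩ hp hv (ε / 4) (by positivity)
    set V : VS Ω := ⟨v, hv⟩ with hV
    set V0 : VS Ω := ⟨v0, hv0⟩ with hV0
    have hsq : 0 < √ε / 2 := by positivity
    have h1 : ‖TT Ω (V - V0)‖ < √ε / 2 := by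
      apply lt_of_pow_lt_pow_left₀ 2 hsq.le
      rw [norm_TT, div_pow, Real.sq_sqrt hε.le]
      norm_num
      exact hlt
    obtain ⟨k, hk⟩ := hu.exists_dist_lt (⟨TT Ω V0, ⟨V0, hv0', rfl⟩⟩ : Y) hsq
    have h2 : ‖TT Ω (V0 - U k)‖ < √ε / 2 := by
      rw [map_sub, hU k, ← dist_eq_norm]
      exact hk
    have h3 : TT Ω (Φ (2 * k)) ∈ Submodule.span ℝ (range w) := hφw (2 * k)
    obtain ⟨c, hc⟩ := (Finsupp.mem_span_range_iff_exists_finsupp).1 h3
    have h4 : ∑ j ∈ c.support, c j • W j = Φ (2 * k) := by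
      apply TT_inj
      rw [map_sum, ← hc]
      refine Finset.sum_congr rfl fun j _ => ?_
      rw [map_smul, hW2]
    have h5 : U k = ∑ n ∈ Finset.range (N k), b k n • Ψ n + ∑ j ∈ c.support, c j • W j := by
      rw [h4, hΦe]
      abel
    refine ⟨Finset.disjSum (Finset.range (N k)) c.support, Sum.elim (b k) c, ?_⟩
    have h6 : ∀ x, ∑ a ∈ Finset.disjSum (Finset.range (N k)) c.support,
        (Sum.elim (b k) c : Ix (ℕ × Bool) → ℝ) a • em ψ (fun j => (W j : E3 → E3)) a x =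
        ((U k : VS Ω) : E3 → E3) x := by
      intro x
      rw [h5, Finset.sum_disjSum, Submodule.coe_add, Pi.add_apply, Submodule.coe_sum,
        Submodule.coe_sum, Finset.sum_apply, Finset.sum_apply]
      rfl
    simp_rw [h6]
    have h7 : ∫ x, ‖v x - ((U k : VS Ω) : E3 → E3) x‖ ^ 2 = ‖TT Ω (V - U k)‖ ^ 2 := by
      rw [norm_TT]
      rfl
    rw [h7]
    have h8 : TT Ω (V - U k) = TT Ω (V - V0) + TT Ω (V0 - U k) := by
      rw [← map_add, sub_add_sub_cancel]
    have h9 : ‖TT Ω (V - U k)‖ < √ε := by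
      rw [h8]
      linarith [norm_add_le (TT Ω (V - V0)) (TT Ω (V0 - U k))]
    calc ‖TT Ω (V - U k)‖ ^ 2 < √ε ^ 2 := pow_lt_pow_left₀ h9 (norm_nonneg _) two_ne_zero
      _ = ε := Real.sq_sqrt hε.le

end

end Pool.Agent.Y328.SK
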